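import Mathlib

/-! Arithmetic lemma of helper4's theorem T3 (note 2615, step (4)): an integer matrix whose rows are constant
and nonzero modulo an odd number `l`, and which satisfies a Bessel inequality with constant `K`,
`2 K < l n`, has at most `K / n` rows. -/

open Finset

namespace H49T3

/-- a nonzero residue has, up to sign, a representative in `[1, (l-1)/2]` -/
theorem sign_rep (l : ℕ) (hl : Odd l) (x : ℤ) (hx : ¬ (l : ℤ) ∣ x) :
    ∃ s r : ℤ, (s = 1 ∨ s = -1) ∧ 1 ≤ r ∧ 2 * r < l ∧ (l : ℤ) ∣ (r - s * x) := by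
  have hl0 : (0 : ℤ) < l := by
    have := hl.pos
    exact_mod_cast this
  set m := x % (l : ℤ) with hm
  have h1 : 0 ≤ m := Int.emod_nonneg _ hl0.ne'
  have h2 : m < l := Int.emod_lt_of_pos _ hl0
  have h3 : (l : ℤ) ∣ x - m := by
    rw [hm]
    exact Int.dvd_self_sub_emod
  have h4 : m ≠ 0 := by
    intro h
    apply hx
    rw [h, sub_zero] at h3
    exact h3
  have h5 : 2 * m ≠ l := by
    intro h
    obtain ⟨k, hk⟩ := hl
    rw [hk] at h
    push_cast at h
    omega
  obtain ⟨c, hc⟩ := h3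
  rcases lt_or_gt_of_ne h5 with h6 | h6
  · exact ⟨1, m, Or.inl rfl, by omega, h6, ⟨-c, by linear_combination -hc⟩⟩
  · exact ⟨-1, l - m, Or.inr rfl, by omega, by omega, ⟨c + 1, by linear_combination hc⟩⟩

/-- real version of the final contradiction: the quadratic function `g` is positive -/
theorem final_ineq (l n K R ρ : ℤ) (hl : 3 ≤ l) (hn : 0 < n) (hK : 0 ≤ K) (hKn : n ≤ K) (h2 : 2 * K < l * n)
    (hR : 2 ≤ R) (hρ : l < 2 * ρ) (hρR : R ≤ ρ) :
    K * R * (l - 2) < n * ρ ^ 2 * (l - 2) - (2 * ρ - l) * (R * (K - n)) := by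
  -- g is increasing for ρ ≥ R
  rcases le_or_gt l (2 * R) with hc | hc
  · -- compare with ρ = R
    have e1 : n * ρ ^ 2 * (l - 2) - (2 * ρ - l) * (R * (K - n)) - K * R * (l - 2)
        = (ρ - R) * (n * (l - 2) * (ρ + R) - 2 * (R * (K - n))) + R * ((R - 1) * (n * l - 2 * K)) := by ring
    have h3 : 0 ≤ n * (l - 2) * (ρ + R) - 2 * (R * (K - n)) := by
      have h4 : 2 * R * (n * (l - 2)) ≤ n * (l - 2) * (ρ + R) := by
        have : 0 ≤ n * (l - 2) := mul_nonneg hn.le (by omega)
        nlinarith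
      have h5 : 0 ≤ 2 * R * (n * (l - 2) - (K - n)) := by
        apply mul_nonneg (by omega)
        nlinarith
      nlinarith
    have h6 : 0 < R * ((R - 1) * (n * l - 2 * K)) := by
      apply mul_pos (by omega)
      apply mul_pos (by omega)
      nlinarith
    have h7 : 0 ≤ (ρ - R) * (n * (l - 2) * (ρ + R) - 2 * (R * (K - n))) := mul_nonneg (by omega) h3
    linarith
  · -- compare with ρ = l/2; work with 2ρ
    have e1 : 4 * (n * ρ ^ 2 * (l - 2) - (2 * ρ - l) * (R * (K - n)) - K * R * (l - 2))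
        = (2 * ρ - l) * (n * (l - 2) * (2 * ρ + l) - 4 * (R * (K - n)))
          + (l - 2) * (n * l ^ 2 - 4 * (K * R)) := by ring
    have h3 : 0 ≤ n * (l - 2) * (2 * ρ + l) - 4 * (R * (K - n)) := by
      have h4 : 2 * l * (n * (l - 2)) ≤ n * (l - 2) * (2 * ρ + l) := by
        have : 0 ≤ n * (l - 2) := mul_nonneg hn.le (by omega)
        nlinarith
      have h5 : 4 * (R * (K - n)) ≤ 2 * l * (K - n) := by
        have : 0 ≤ K - n := by omega
        nlinarith
      have h6 : 0 ≤ 2 * l * (n * (l - 2) - (K - n)) := by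
        apply mul_nonneg (by omega)
        nlinarith
      nlinarith
    have h6 : 0 < (l - 2) * (n * l ^ 2 - 4 * (K * R)) := by
      apply mul_pos (by omega)
      have h7 : 4 * (K * R) ≤ 2 * l * K := by nlinarith
      have h8 : 2 * l * K < l * (l * n) := by nlinarith
      nlinarith
    have h7 : 0 ≤ (2 * ρ - l) * (n * (l - 2) * (2 * ρ + l) - 4 * (R * (K - n))) :=
      mul_nonneg (by omega) h3
    linarith

/-- **Arithmetic lemma of T3.** -/
theorem arith {R U : Type*} [Fintype R] [Fintype U] (l : ℕ) (hl : Odd l) (hl3 : 3 ≤ l) (K : ℕ)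
    (a : R → U → ℤ) (h0 : ∀ χ u u', (l : ℤ) ∣ a χ u - a χ u') (hn : ∀ χ u, ¬ (l : ℤ) ∣ a χ u)
    (bessel : ∀ s : R → ℤ, ∑ u, (∑ χ, s χ * a χ u) ^ 2 ≤ K * ∑ χ, s χ ^ 2)
    (h2 : 2 * K < l * Fintype.card U) :
    Fintype.card R * Fintype.card U ≤ K := by
  classical
  have hU : Nonempty U := by
    by_contra h
    rw [not_nonempty_iff] at h
    have : Fintype.card U = 0 := Fintype.card_eq_zero
    rw [this] at h2
    omega
  obtain ⟨u0⟩ := hU
  rcases isEmpty_or_nonempty R with hR | hR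
  · have : Fintype.card R = 0 := Fintype.card_eq_zero
    rw [this]
    omega
  choose s r hs hr1 hr2 hr3 using fun χ => sign_rep l hl (a χ u0) (hn χ u0)
  have hdv : ∀ χ u, (l : ℤ) ∣ r χ - s χ * a χ u := by
    intro χ u
    have e : r χ - s χ * a χ u = (r χ - s χ * a χ u0) + s χ * (a χ u0 - a χ u) := by ring
    rw [e]
    exact dvd_add (hr3 χ) (Dvd.dvd.mul_left (h0 χ u0 u) _)
  choose j hj using hdv
  have hsa : ∀ χ u, s χ * a χ u = r χ - l * j χ u := by
    intro χ u
    linarith [hj χ u]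
  have hs2 : ∀ χ, s χ ^ 2 = 1 := by
    intro χ
    rcases hs χ with h | h <;> rw [h] <;> norm_num
  set n : ℤ := ((Fintype.card U : ℕ) : ℤ) with hnn
  set m : ℤ := ((Fintype.card R : ℕ) : ℤ) with hmm
  have hlZ : (3 : ℤ) ≤ l := by exact_mod_cast hl3
  have hn0 : 0 < n := by
    rw [hnn]
    exact_mod_cast Fintype.card_pos_iff.2 ⟨u0⟩
  have hm0 : 0 < m := by
    rw [hmm]
    exact_mod_cast Fintype.card_pos
  have h2' : 2 * (K : ℤ) < l * n := by
    rw [hnn]
    exact_mod_cast h2
  -- single rows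
  have hrow : ∀ χ, ∑ u, (a χ u) ^ 2 ≤ (K : ℤ) := by
    intro χ
    have h := bessel (fun i => if i = χ then 1 else 0)
    simpa using h
  have hjj : ∀ j : ℤ, j ≤ j ^ 2 := fun j => Int.le_self_sq j
  have hrowj : ∀ χ, n * r χ ^ 2 + (l - 2 * r χ) * (l * ∑ u, j χ u) ≤ K := by
    intro χ
    refine le_trans ?_ (hrow χ)
    rw [mul_sum, mul_sum, hnn, ← smul_eq_mul ((Fintype.card U : ℕ) : ℤ), Nat.cast_smul_eq_nsmul,
      ← Finset.card_univ, ← Finset.sum_const, ← Finset.sum_add_distrib]
    refine Finset.sum_le_sum fun u _ => ?_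
    have e1 : a χ u ^ 2 = (r χ - l * j χ u) ^ 2 := by
      rw [← hsa, mul_pow, hs2, one_mul]
    rw [e1]
    nlinarith [hjj (j χ u), mul_nonneg (mul_nonneg (by positivity : (0 : ℤ) ≤ l) (by positivity : (0 : ℤ) ≤ l))
      (sub_nonneg.2 (hjj (j χ u)))]
  have hnK : n ≤ K := by
    obtain ⟨χ⟩ := hR
    refine le_trans ?_ (hrow χ)
    rw [hnn, ← Finset.card_univ, Finset.cast_card]
    refine Finset.sum_le_sum fun u _ => ?_
    have : a χ u ≠ 0 := fun h => hn χ u (by rw [h]; exact dvd_zero _)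
    have := sq_nonneg (a χ u)
    rcases this.eq_or_lt with h | h
    · exact absurd (pow_eq_zero_iff (two_ne_zero) |>.1 h.symm) ‹_›
    · omega
  have hK0 : (0 : ℤ) ≤ K := by positivity
  -- bound for the sum of the `j`
  have hrowj' : ∀ χ, (l - 2) * (l * ∑ u, j χ u) ≤ K - n := by
    intro χ
    have h3 := hrowj χ
    have h4 := hr1 χ
    have h5 := hr2 χ
    set J := (l : ℤ) * ∑ u, j χ u with hJ
    have h6 : 0 < (l : ℤ) - 2 * r χ := by linarith
    have h7 : (l - 2 * r χ) * J ≤ K - n * r χ ^ 2 := by linarith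
    have h8 : (l - 2 * r χ) * ((l - 2) * J) ≤ (l - 2 * r χ) * (K - n) := by
      calc (l - 2 * r χ) * ((l - 2) * J) = (l - 2) * ((l - 2 * r χ) * J) := by ring
        _ ≤ (l - 2) * (K - n * r χ ^ 2) := by
            apply mul_le_mul_of_nonneg_left h7
            linarith
        _ ≤ (l - 2 * r χ) * (K - n) := by
            have e : (l - 2 * r χ) * (K - n) - (l - 2) * (K - n * r χ ^ 2)
                = (r χ - 1) * (n * ((r χ + 1) * l - 2 * r χ) - 2 * K) := by ring
            have h9 : 0 ≤ (r χ - 1) * (n * ((r χ + 1) * l - 2 * r χ) - 2 * K) := by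
              apply mul_nonneg (by linarith)
              have h10 : (l : ℤ) ≤ (r χ + 1) * l - 2 * r χ := by nlinarith
              nlinarith
            linarith
    exact le_of_mul_le_mul_left h8 h6
  set ρ : ℤ := ∑ χ, r χ with hρ
  set J : U → ℤ := fun u => ∑ χ, j χ u with hJ
  have hmain : ∑ u, (ρ - l * J u) ^ 2 ≤ K * m := by
    have h := bessel s
    have e1 : ∀ u, ∑ χ, s χ * a χ u = ρ - l * J u := by
      intro u
      rw [hρ, hJ]
      simp only [hsa, Finset.sum_sub_distrib, Finset.mul_sum]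
    simp only [e1, hs2] at h
    simpa [hmm, Finset.card_univ] using h
  have hρm : m ≤ ρ := by
    rw [hmm, hρ, ← Finset.card_univ, Finset.cast_card]
    exact Finset.sum_le_sum fun χ _ => hr1 χ
  have hgoal : m * n ≤ K := by
    rcases le_or_gt (2 * ρ) l with hc | hc
    · -- small case
      have h3 : ∀ u, ρ ^ 2 ≤ (ρ - l * J u) ^ 2 := by
        intro u
        have e : (ρ - l * J u) ^ 2 = ρ ^ 2 + (l * (l * J u ^ 2 - 2 * ρ * J u)) := by ring
        rw [e]
        have h4 : 0 ≤ l * J u ^ 2 - 2 * ρ * J u := by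
          rcases le_or_gt (J u) 0 with h5 | h5
          · have := mul_nonneg (by linarith : (0 : ℤ) ≤ l) (sq_nonneg (J u))
            nlinarith
          · nlinarith [hjj (J u), mul_pos h5 h5]
        have : 0 ≤ (l : ℤ) * (l * J u ^ 2 - 2 * ρ * J u) := mul_nonneg (by linarith) h4
        linarith
      have h4 : n * ρ ^ 2 ≤ K * m := by
        refine le_trans ?_ hmain
        rw [hnn, ← smul_eq_mul ((Fintype.card U : ℕ) : ℤ), Nat.cast_smul_eq_nsmul, ← Finset.card_univ,
          ← Finset.sum_const]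
        exact Finset.sum_le_sum fun u _ => h3 u
      have h5 : n * ρ ≤ K := by
        have h6 : n * ρ * ρ ≤ K * ρ := by nlinarith
        exact le_of_mul_le_mul_right h6 (by linarith)
      nlinarith
    · -- large case: contradiction
      exfalso
      have h3 : ∀ u, ρ ^ 2 - (2 * ρ - l) * (l * J u) ≤ (ρ - l * J u) ^ 2 := by
        intro u
        have := mul_nonneg (mul_nonneg (by linarith : (0 : ℤ) ≤ l) (by linarith : (0 : ℤ) ≤ l))
          (sub_nonneg.2 (hjj (J u)))
        nlinarith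
      have h4 : n * ρ ^ 2 - (2 * ρ - l) * (l * ∑ u, J u) ≤ K * m := by
        refine le_trans ?_ hmain
        have e2 : (2 * ρ - l) * (l * ∑ u, J u) = ∑ u, (2 * ρ - l) * (l * J u) := by
          rw [Finset.mul_sum Finset.univ J (l : ℤ), Finset.mul_sum Finset.univ _ (2 * ρ - l)]
        rw [e2, hnn, ← smul_eq_mul ((Fintype.card U : ℕ) : ℤ), Nat.cast_smul_eq_nsmul,
          ← Finset.card_univ, ← Finset.sum_const, ← Finset.sum_sub_distrib]
        exact Finset.sum_le_sum fun u _ => h3 u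
      have h5 : (l - 2) * (l * ∑ u, J u) ≤ m * (K - n) := by
        have e : (l - 2) * (l * ∑ u, J u) = ∑ χ, (l - 2) * ((l : ℤ) * ∑ u, j χ u) := by
          rw [hJ, Finset.sum_comm, Finset.mul_sum, Finset.mul_sum]
        rw [e, hmm, ← smul_eq_mul ((Fintype.card R : ℕ) : ℤ), Nat.cast_smul_eq_nsmul, ← Finset.card_univ,
          ← Finset.sum_const]
        exact Finset.sum_le_sum fun χ _ => hrowj' χ
      have h6 : n * ρ ^ 2 * (l - 2) - (2 * ρ - l) * (m * (K - n)) ≤ K * m * (l - 2) := by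
        have h7 : (n * ρ ^ 2 - (2 * ρ - l) * (l * ∑ u, J u)) * (l - 2) ≤ K * m * (l - 2) :=
          mul_le_mul_of_nonneg_right h4 (by linarith)
        have h8 : (2 * ρ - l) * ((l - 2) * (l * ∑ u, J u)) ≤ (2 * ρ - l) * (m * (K - n)) :=
          mul_le_mul_of_nonneg_left h5 (by linarith)
        linarith
      rcases eq_or_lt_of_le (show (1 : ℤ) ≤ m from hm0) with hm1 | hm1
      · -- one row only: then `2 ρ < l`
        have h7 : Fintype.card R = 1 := by
          have : ((Fintype.card R : ℕ) : ℤ) = 1 := by rw [← hmm, ← hm1]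
          exact_mod_cast this
        obtain ⟨χ, hχ⟩ := Fintype.card_eq_one_iff.1 h7
        have h8 : ρ = r χ := by
          rw [hρ]
          have : (Finset.univ : Finset R) = {χ} := by
            ext x
            simp [hχ x]
          rw [this, Finset.sum_singleton]
        have := hr2 χ
        linarith
      · have h7 := final_ineq l n K m ρ hlZ hn0 hK0 hnK h2' hm1 hc hρm
        linarith
  have : ((Fintype.card R : ℕ) : ℤ) * ((Fintype.card U : ℕ) : ℤ) ≤ K := hgoal
  exact_mod_cast this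

end H49T3
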